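import Pool.Agent.W434.BW.StmC

/-!
BW-P6 and BW-MAIN
-/

set_option autoImplicit false

namespace Pool.Agent.W672.BW

open Pool.Agent.W434.BW

/-- arguments with index in `S` in `C` force the value into `C` -/
def Win {A : Type} (v : (Fin 3 → A) → A) (C P : Set A) (S : Fin 3 → Prop) : Prop :=
  ∀ x : Fin 3 → A, (∀ i, x i ∈ P) → (∀ i, S i → x i ∈ C) → v x ∈ C

theorem win_or {A : Type} (E : Ops A) (C P : Set A) (hCP : C ⊆ P) (v : (Fin 3 → A) → A)
    (hv : v ∈ E 3) (hI : Inv2 E (RC C P)) (S : Fin 3 → Prop) :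
    Win v C P S ∨ Win v C P (fun i => ¬ S i) := by
  by_contra hcon
  rw [not_or] at hcon
  obtain ⟨h1, h2⟩ := hcon
  unfold Win at h1 h2
  push Not at h1 h2
  obtain ⟨x, hx1, hx2, hx3⟩ := h1
  obtain ⟨y, hy1, hy2, hy3⟩ := h2
  have h3 := hI 3 v hv x y (fun i => by
    refine ⟨hx1 i, hy1 i, ?_⟩
    by_cases hS : S i
    · exact Or.inl (hx2 i hS)
    · exact Or.inr (hy2 i hS))
  rcases h3.2.2 with h4 | h4
  · exact hx3 h4
  · exact hy3 h4

theorem vec_mem {A : Type} (P : Set A) (a b c : A) (ha : a ∈ P) (hb : b ∈ P) (hc : c ∈ P) :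
    ∀ i : Fin 3, (![a, b, c] : Fin 3 → A) i ∈ P := by
  intro i
  fin_cases i
  · exact ha
  · exact hb
  · exact hc

theorem p6 : S_p6 := by
  intro A E C P hE hBW hC hP hCP hI
  obtain ⟨v, hv, w, hw, hl1, hl2, hl3, hl4, hl5⟩ := hBW
  have hwin := win_or E C P hCP v hv hI
  by_cases hcase : ∃ i : Fin 3, Win v C P (fun j => j = i)
  · -- a winning singleton
    obtain ⟨i, hi⟩ := hcase
    -- the binary operation
    have hg1 : ∀ x ∈ C, ∀ y ∈ P, v ![x, x, y] ∈ C := by
      intro x hx y hy
      have e1 := (hl3 x y).2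
      have e2 := (hl3 x y).1
      fin_cases i
      · apply hi _ (vec_mem P x x y (hCP hx) (hCP hx) hy)
        intro j hj
        rw [hj]
        exact hx
      · apply hi _ (vec_mem P x x y (hCP hx) (hCP hx) hy)
        intro j hj
        rw [hj]
        exact hx
      · rw [← e1]
        apply hi _ (vec_mem P x y x (hCP hx) hy (hCP hx))
        intro j hj
        rw [hj]
        exact hx
    have hg2 : ∀ x ∈ P, ∀ y ∈ C, v ![x, x, y] ∈ C := by
      intro x hx y hy
      have e1 := (hl3 x y).2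
      have e2 := (hl3 x y).1
      fin_cases i
      · rw [← e1, ← e2]
        apply hi _ (vec_mem P y x x (hCP hy) hx hx)
        intro j hj
        rw [hj]
        exact hy
      · rw [← e1]
        apply hi _ (vec_mem P x y x hx (hCP hy) hx)
        intro j hj
        rw [hj]
        exact hy
      · apply hi _ (vec_mem P x x y hx hx (hCP hy))
        intro j hj
        rw [hj]
        exact hy
    have hgP : ∀ x ∈ P, ∀ y ∈ P, v ![x, x, y] ∈ P := fun x hx y hy =>
      hP 3 v hv _ (vec_mem P x x y hx hx hy)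
    refine ⟨fun z => v ![z 0, z 0, v ![z 1, z 1, z 2]], ?_, ?_⟩
    · have h1 : (fun z : Fin 3 → A => v ![z 1, z 1, z 2]) ∈ E 3 := by
        have h2 := hE.2 3 3 v ![fun z => z 1, fun z => z 1, fun z => z 2] hv (by
          intro j
          fin_cases j
          · exact hE.1 3 1
          · exact hE.1 3 1
          · exact hE.1 3 2)
        have h3 : (fun x : Fin 3 → A => v (fun i =>
            (![fun z => z 1, fun z => z 1, fun z => z 2] : Fin 3 → (Fin 3 → A) → A) i x)) =
            fun z : Fin 3 → A => v ![z 1, z 1, z 2] := by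
          funext x
          congr 1
          funext j
          fin_cases j <;> rfl
        rw [h3] at h2
        exact h2
      have h2 := hE.2 3 3 v ![fun z => z 0, fun z => z 0, fun z => v ![z 1, z 1, z 2]] hv (by
        intro j
        fin_cases j
        · exact hE.1 3 0
        · exact hE.1 3 0
        · exact h1)
      have h3 : (fun x : Fin 3 → A => v (fun i =>
          (![fun z => z 0, fun z => z 0, fun z => v ![z 1, z 1, z 2]] :
            Fin 3 → (Fin 3 → A) → A) i x)) =
          fun z : Fin 3 → A => v ![z 0, z 0, v ![z 1, z 1, z 2]] := by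
        funext x
        congr 1
        funext j
        fin_cases j <;> rfl
      rw [h3] at h2
      exact h2
    · intro c hc d hd x hx
      refine ⟨?_, ?_, ?_⟩
      · exact hg1 c hc _ (hgP d (hCP hd) x hx)
      · exact hg1 c hc _ (hgP x hx d (hCP hd))
      · exact hg2 x hx _ (hg1 c hc d (hCP hd))
  · -- all pairs are winning
    push Not at hcase
    have hall : ∀ i : Fin 3, Win v C P (fun j => ¬ j = i) := fun i =>
      (hwin (fun j => j = i)).resolve_left (hcase i)
    refine ⟨v, hv, ?_⟩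
    intro c hc d hd x hx
    refine ⟨?_, ?_, ?_⟩
    · apply hall 2 _ (vec_mem P c d x (hCP hc) (hCP hd) hx)
      intro j hj
      fin_cases j
      · exact hc
      · exact hd
      · exact absurd rfl hj
    · apply hall 1 _ (vec_mem P c x d (hCP hc) hx (hCP hd))
      intro j hj
      fin_cases j
      · exact hc
      · exact absurd rfl hj
      · exact hd
    · apply hall 0 _ (vec_mem P x c d hx (hCP hc) (hCP hd))
      intro j hj
      fin_cases j
      · exact absurd rfl hj
      · exact hc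
      · exact hd

theorem clsub_iff {A : Type} (E : Ops A) (P : Set A) :
    ClSub E P ↔ Inv2 E {p | p.1 ∈ P ∧ p.2 ∈ P} := by
  constructor
  · intro h k f hf x y hxy
    exact ⟨h k f hf x fun i => (hxy i).1, h k f hf y fun i => (hxy i).2⟩
  · intro h k f hf x hx
    exact (h k f hf x x fun i => ⟨hx i, hx i⟩).1

theorem main (hc : S_clo) (hb : S_nlb) (h34 : S_n34) (hk : S_k1) (h6 : S_p6) : S_main := by
  obtain ⟨c1, c2, c3, c4, c5, c6, c7, c8⟩ := hc
  intro A _ E F hE hF hinv
  have hIE := c6 A E hE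
  have hIF := c6 A F hF
  obtain ⟨hEc, hEb, hEm⟩ := hE
  obtain ⟨hFc, hFb, hFm⟩ := hF
  obtain ⟨v, hv, w, hw, hl⟩ := hEb
  obtain ⟨v', hv', w', hw', hl'⟩ := hFb
  have hEb : IsBW E := ⟨v, hv, w, hw, hl⟩
  have hFb : IsBW F := ⟨v', hv', w', hw', hl'⟩
  have hcs : ∀ P, ClSub E P ↔ ClSub F P := fun P => by
    rw [clsub_iff, clsub_iff]; exact hinv _
  have hT : Two (tm3 E v hv) (tm3 F v' hv') (clA E) (clA F) := by
    refine ⟨c4 A E hIE v hv hl.2.2.1, c4 A F hIF v' hv' hl'.2.2.1, ?_, ?_, hb.2 A E hIE hEb,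
      hb.2 A F hIF hFb⟩
    · intro R
      rw [c3, c3]
      exact hinv _
    · intro P C hP hC hCP _
      rw [c2] at hP hC
      have hP' := (hcs P).1 hP
      have hC' := (hcs C).1 hC
      rw [c5 A E hEc C P, c5 A F hFc C P]
      constructor
      · intro h
        exact h6 A F C P hFc hFb hC' hP' hCP ((hinv _).1
          (hk A E C P ⟨hEc, hEb, hEm⟩ hC hP hCP h))
      · intro h
        exact h6 A E C P hEc hEb hC hP hCP ((hinv _).2
          (hk A F C P ⟨hFc, hFb, hFm⟩ hC' hP' hCP h))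
  obtain ⟨s, hs1, hs2, r, hr1, hr2, hsr⟩ := h34 A E F _ _ hEc hFc hIE hIF hinv hT
  have hHc : IsCl (fun k => E k ∩ F k : Ops A) := by
    refine ⟨fun k i => ⟨hEc.1 k i, hFc.1 k i⟩, ?_⟩
    intro k m f g hf hg
    exact ⟨hEc.2 k m f g hf.1 fun i => (hg i).1, hFc.2 k m f g hf.2 fun i => (hg i).2⟩
  have hHb : IsBW (fun k => E k ∩ F k : Ops A) := ⟨s, ⟨hs1, hs2⟩, r, ⟨hr1, hr2⟩, hsr⟩
  have h1 := hEm _ hHc hHb fun k => Set.inter_subset_left
  have h2 := hFm _ hHc hHb fun k => Set.inter_subset_right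
  exact h1.symm.trans h2

end Pool.Agent.W672.BW
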